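import Mathlib

set_option autoImplicit false

/-!
The limit superior of a shifted sequence, with a factor `1 + 1 / q`.
-/

namespace Pool.Agent.Helper88.T1

open Filter

/-- `(k + a) ^ N ≤ (1 + ε) k ^ N` for large `k` -/
theorem shift_pow_le (N a : ℕ) {ε : ℝ} (hε : 0 < ε) :
    ∀ᶠ k : ℕ in atTop, (((k + a : ℕ) : ℝ)) ^ N ≤ (1 + ε) * (k : ℝ) ^ N := by
  have h1 : Tendsto (fun k : ℕ => (1 + (a : ℝ) / k) ^ N) atTop (nhds ((1 + 0) ^ N)) :=
    ((tendsto_const_div_atTop_nhds_zero_nat (a : ℝ)).const_add 1).pow N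
  rw [add_zero, one_pow] at h1
  filter_upwards [h1.eventually_lt_const (show (1 : ℝ) < 1 + ε by linarith),
    eventually_gt_atTop 0] with k hk hk0
  have hk1 : (0 : ℝ) < k := by exact_mod_cast hk0
  have e : (((k + a : ℕ) : ℝ)) = (1 + (a : ℝ) / k) * k := by
    push_cast
    field_simp
  rw [e, mul_pow]
  exact mul_le_mul_of_nonneg_right hk.le (by positivity)

theorem limsup_shift (N q a : ℕ) (hq : 1 ≤ q) (F l : ℕ → ℕ)
    (h : ∀ k, q * F k ≤ (q + 1) * l (k + a)) :
    limsup (fun k : ℕ => ((N.factorial * F k : ℕ) : ENNReal) / (k : ENNReal) ^ N) atTop ≤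
      ENNReal.ofReal (1 + 1 / q) *
        limsup (fun k : ℕ => ((N.factorial * l k : ℕ) : ENNReal) / (k : ENNReal) ^ N) atTop := by
  set L : ENNReal :=
    limsup (fun k : ℕ => ((N.factorial * l k : ℕ) : ENNReal) / (k : ENNReal) ^ N) atTop with hL
  have hq0 : (0 : ℝ) < q := by exact_mod_cast hq
  -- the shifted sequence
  have hs : limsup (fun k : ℕ => ((N.factorial * l (k + a) : ℕ) : ENNReal) /
      ((k + a : ℕ) : ENNReal) ^ N) atTop = L :=
    limsup_nat_add (fun k : ℕ => ((N.factorial * l k : ℕ) : ENNReal) / (k : ENNReal) ^ N) a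
  -- the bound with `ε`
  have key : ∀ ε : ℝ, 0 < ε →
      limsup (fun k : ℕ => ((N.factorial * F k : ℕ) : ENNReal) / (k : ENNReal) ^ N) atTop ≤
        ENNReal.ofReal (1 + ε) * (ENNReal.ofReal (1 + 1 / q) * L) := by
    intro ε hε
    have h1 : ∀ᶠ k : ℕ in atTop, ((N.factorial * F k : ℕ) : ENNReal) / (k : ENNReal) ^ N ≤
        ENNReal.ofReal (1 + ε) * (ENNReal.ofReal (1 + 1 / q) *
          (((N.factorial * l (k + a) : ℕ) : ENNReal) / ((k + a : ℕ) : ENNReal) ^ N)) := by
      filter_upwards [shift_pow_le N a hε, eventually_gt_atTop 0] with k hk hk0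
      have hk1 : (0 : ℝ) < k := by exact_mod_cast hk0
      have hka : (0 : ℝ) < ((k + a : ℕ) : ℝ) := by
        push_cast
        positivity
      have hF : (F k : ℝ) ≤ (1 + 1 / q) * l (k + a) := by
        have h2 : ((q * F k : ℕ) : ℝ) ≤ (((q + 1) * l (k + a) : ℕ) : ℝ) := by
          exact_mod_cast h k
        push_cast at h2
        have e : (1 + 1 / (q : ℝ)) * l (k + a) = ((q + 1) * l (k + a)) / q := by
          field_simp
        rw [e, le_div_iff₀ hq0]
        linarith
      have e1 : ((N.factorial * F k : ℕ) : ENNReal) / (k : ENNReal) ^ N =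
          ENNReal.ofReal ((N.factorial * F k : ℕ) / (k : ℝ) ^ N) := by
        rw [ENNReal.ofReal_div_of_pos (by positivity), ENNReal.ofReal_natCast,
          ENNReal.ofReal_pow hk1.le, ENNReal.ofReal_natCast]
      have e2 : ((N.factorial * l (k + a) : ℕ) : ENNReal) / ((k + a : ℕ) : ENNReal) ^ N =
          ENNReal.ofReal ((N.factorial * l (k + a) : ℕ) / ((k + a : ℕ) : ℝ) ^ N) := by
        rw [ENNReal.ofReal_div_of_pos (by positivity), ENNReal.ofReal_natCast,
          ENNReal.ofReal_pow hka.le, ENNReal.ofReal_natCast]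
      rw [e1, e2, ← ENNReal.ofReal_mul (by positivity), ← ENNReal.ofReal_mul (by positivity)]
      refine ENNReal.ofReal_le_ofReal ?_
      rw [div_le_iff₀ (by positivity)]
      have h3 : (1 + ε) * ((1 + 1 / (q : ℝ)) * (((N.factorial * l (k + a) : ℕ) : ℝ) /
          ((k + a : ℕ) : ℝ) ^ N)) * (k : ℝ) ^ N =
          (N.factorial : ℝ) * ((1 + 1 / q) * l (k + a)) *
            (((1 + ε) * (k : ℝ) ^ N) / ((k + a : ℕ) : ℝ) ^ N) := by
        push_cast
        ring
      rw [h3]
      have h4 : (1 : ℝ) ≤ ((1 + ε) * (k : ℝ) ^ N) / ((k + a : ℕ) : ℝ) ^ N := by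
        rw [le_div_iff₀ (by positivity), one_mul]
        exact hk
      have h5 : (0 : ℝ) ≤ (N.factorial : ℝ) * ((1 + 1 / q) * l (k + a)) := by positivity
      calc ((N.factorial * F k : ℕ) : ℝ) = (N.factorial : ℝ) * F k := by push_cast; ring
        _ ≤ (N.factorial : ℝ) * ((1 + 1 / q) * l (k + a)) :=
          mul_le_mul_of_nonneg_left hF (by positivity)
        _ ≤ _ := le_mul_of_one_le_right h5 h4
    refine (limsup_le_limsup h1).trans ?_
    rw [ENNReal.limsup_const_mul_of_ne_top ENNReal.ofReal_ne_top,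
      ENNReal.limsup_const_mul_of_ne_top ENNReal.ofReal_ne_top, hs]
  -- `ε → 0`
  rcases eq_or_ne L ⊤ with hT | hT
  · rw [hT, ENNReal.mul_top (by simp; positivity)]
    exact le_top
  have hfin : ENNReal.ofReal (1 + 1 / q) * L ≠ ⊤ := ENNReal.mul_ne_top ENNReal.ofReal_ne_top hT
  set M : ENNReal := ENNReal.ofReal (1 + 1 / q) * L with hM
  have hlim : Tendsto (fun n : ℕ => ENNReal.ofReal (1 + 1 / ((n : ℝ) + 1)) * M) atTop
      (nhds (1 * M)) := by
    refine ENNReal.Tendsto.mul_const ?_ (Or.inr hfin)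
    have h6 : Tendsto (fun n : ℕ => ENNReal.ofReal (1 + 1 / ((n : ℝ) + 1))) atTop
        (nhds (ENNReal.ofReal (1 + 0))) :=
      ENNReal.tendsto_ofReal (tendsto_one_div_add_atTop_nhds_zero_nat.const_add 1)
    simpa using h6
  rw [one_mul] at hlim
  exact ge_of_tendsto' hlim fun n => key _ (by positivity)

end Pool.Agent.Helper88.T1
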